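import Mathlib
import Pool.Agent.Lib.MP_9b5ec2_co.Main2

/-!
# MP_9b5ec2_co: Q1 for almost disjoint hyperedges

For every `m` there are constants `C`, `γ > 0` (depending only on `m`) such that for every
hereditary family `F` of finite hypergraphs with `m_2(F) ≤ m`, all `q`, `t` and `k ≥ 1`, and every
member `H` of `F`: if the hyperedges of size at least `M = C q (k + t)` can be divided in `q` classes
such that different hyperedges `e, f` of the same class have at most `t + γ min(|e|, |f|)` common
vertices, then `H` has a `k`-colouring that is polychromatic for hyperedges of size at least `M`.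

So Q1 holds, `m_k(F) ≤ C q (k + t)`, if the hyperedges of every member of `F` can be divided in `q`
classes such that different hyperedges of the same class have at most `t` common vertices
(`q = t = 1`: linear hypergraphs).
-/

set_option autoImplicit false

namespace Pool.Agent.Results.MP_9b5ec2_co.AlmostDisjoint

open Pool.Agent.Lib.MP_9b5ec2_co

universe u

theorem result (m : ℕ) :
    ∃ (C : ℕ) (γ : ℝ), 0 < γ ∧
      ∀ (α : Type u) [DecidableEq α] (F : Set (FinHypergraph α)), Hereditary F → PolyLE F 2 m →
        ∀ H ∈ F, ∀ q t k : ℕ, 1 ≤ k → ∀ col : Finset α → Fin q,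
          (∀ e ∈ H.edges, ∀ f ∈ H.edges, C * q * (k + t) ≤ e.card → C * q * (k + t) ≤ f.card →
            e ≠ f → col e = col f →
            ((e ∩ f).card : ℝ) ≤ t + γ * min (e.card : ℝ) (f.card : ℝ)) →
          ∃ c : α → Fin k, Polychromatic k (C * q * (k + t)) H c :=
  almostDisjoint_of ad_holds m

end Pool.Agent.Results.MP_9b5ec2_co.AlmostDisjoint
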