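import Mathlib
import Pool.Agent.Lib.MP_9b5ec2_co.Main3
import Pool.Agent.Lib.MP_9b5ec2_co.Hyper

/-!
# Fractional polychromatic colourings with linear threshold

For every `m` there is a constant `C`, depending only on `m`, such that for every hereditary family
`F` of finite hypergraphs with `m_2(F) ≤ m`, every member `H` of `F`, every nonnegative weight
function `w` on the vertices and every `t > 0` there is a probability distribution `q` on the
subsets `T` of `V(H)`, supported on sets that meet all hyperedges of weight at least `t`, with
`t * Pr[v ∈ T] ≤ C * w(v)` for every vertex `v`.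

With `w = 1` and `t = C k`: a fractional polychromatic `k`-colouring for hyperedges of size at least
`C k`, i.e. a random set that meets all these hyperedges and contains every vertex with probability
at most `1/k` (a random colour class of a polychromatic `k`-colouring, with the colours permuted at
random, would be such a set). In particular, for every cost function `c` some set of cost at most
`C/t * ∑ c(v) w(v)` meets all hyperedges of weight at least `t`.
-/

set_option autoImplicit false

namespace Pool.Agent.Results.MP_9b5ec2_co.FractionalColouring

open Pool.Agent.Lib.MP_9b5ec2_co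

universe u

theorem result (m : ℕ) :
    ∃ C : ℝ, 0 < C ∧ ∀ (α : Type u) [DecidableEq α] (F : Set (FinHypergraph α)),
      Hereditary F → PolyLE F 2 m → ∀ H ∈ F, ∀ w : α → ℝ, (∀ v, 0 ≤ w v) → ∀ t : ℝ, 0 < t →
        ∃ q : Finset α → ℝ, (∀ T, 0 ≤ q T) ∧ ∑ T ∈ H.verts.powerset, q T = 1 ∧
          (∀ T ∈ H.verts.powerset, q T ≠ 0 → ∀ e ∈ H.edges, t ≤ ∑ v ∈ e, w v →
            (e ∩ T).Nonempty) ∧
          ∀ v ∈ H.verts, t * ∑ T ∈ H.verts.powerset.filter (fun T => v ∈ T), q T ≤ C * w v :=
  frac_of frac_holds m

end Pool.Agent.Results.MP_9b5ec2_co.FractionalColouring
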