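import Mathlib
import Pool.Agent.Lib.MP_9b5ec2_co.Main4
import Pool.Agent.Lib.MP_9b5ec2_co.Hyper

/-!
# Integral polychromatic colourings with an almost linear threshold, for all hereditary families

For all `m` and `0 < η ≤ 1` there is a constant `C`, depending only on `m` and `η`, such that for
every hereditary family `F` of finite hypergraphs with `m_2(F) ≤ m`, every member `H` of `F` with
`n` vertices and all `k ≥ 1` and `M ≥ C (k + (log (n + 2)) ^ (1 + η))`, the hypergraph `H` has a
`k`-colouring that is polychromatic for the hyperedges of size at least `M`.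

So the threshold is linear in `k` for all members with `log n ≤ k ^ (1 - η)`.
-/

set_option autoImplicit false

namespace Pool.Agent.Results.MP_9b5ec2_co.IntegralColouring

open Pool.Agent.Lib.MP_9b5ec2_co

universe u

theorem result (m : ℕ) (η : ℝ) (hη0 : 0 < η) (hη1 : η ≤ 1) :
    ∃ C : ℝ, 0 < C ∧ ∀ (α : Type u) [DecidableEq α] (F : Set (FinHypergraph α)),
      Hereditary F → PolyLE F 2 m → ∀ H ∈ F, ∀ k M : ℕ, 1 ≤ k →
        C * (k + Real.log (H.verts.card + 2) ^ (1 + η)) ≤ M →
        ∃ c : α → Fin k, Polychromatic k M H c :=
  log_of log_holds m η hη0 hη1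

end Pool.Agent.Results.MP_9b5ec2_co.IntegralColouring
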