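import Mathlib
import Pool.Agent.Lib.MP_9b5ec2_co.Main2

/-!
# MP_9b5ec2_co: packing theorem for hereditary families with finite `m_2`

For every `m` there are constants `s₀`, `γ > 0`, `Λ` (depending only on `m`) such that for every
hereditary family `F` of finite hypergraphs with `m_2(F) ≤ m` and every member `H` of `F`: any set
`S` of hyperedges of `H` with sizes in `[s, 2s]`, `s ≥ s₀`, and pairwise intersections of size at
most `γ s` has at most `Λ |V(H)| / s` members.
-/

set_option autoImplicit false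

namespace Pool.Agent.Results.MP_9b5ec2_co.Packing

open Pool.Agent.Lib.MP_9b5ec2_co

universe u

theorem result (m : ℕ) :
    ∃ s₀ γ Λ : ℝ, 0 < γ ∧ ∀ (α : Type u) [DecidableEq α] (F : Set (FinHypergraph α)),
      Hereditary F → PolyLE F 2 m → ∀ H ∈ F, ∀ S ⊆ H.edges, ∀ s : ℝ, s₀ ≤ s →
        (∀ e ∈ S, s ≤ (e.card : ℝ) ∧ (e.card : ℝ) ≤ 2 * s) →
        (∀ e ∈ S, ∀ f ∈ S, e ≠ f → ((e ∩ f).card : ℝ) ≤ γ * s) →
        (S.card : ℝ) * s ≤ Λ * (H.verts.card : ℝ) :=
  packing_of gt_holds m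

end Pool.Agent.Results.MP_9b5ec2_co.Packing
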